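import Mathlib

set_option autoImplicit false

/-!
# Zero free half planes for planar networks

`B u v` is the area form on the complex plane.  The vectors `s 0, ..., s (N - 1)` satisfy `Inv w N s`
if they are in clockwise order, inside an angle not larger than the argument of `w`.
-/

open Finset

namespace Q195.RZ

/-- The area form. -/
def B (u v : ℂ) : ℝ := u.re * v.im - u.im * v.re

theorem B_self (u : ℂ) : B u u = 0 := by unfold B; ring

theorem B_add_left (u v x : ℂ) : B (u + v) x = B u x + B v x := by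
  unfold B; simp only [Complex.add_re, Complex.add_im]; ring

theorem B_add_right (u v x : ℂ) : B x (u + v) = B x u + B x v := by
  unfold B; simp only [Complex.add_re, Complex.add_im]; ring

theorem B_zero_left (x : ℂ) : B 0 x = 0 := by unfold B; simp

theorem B_zero_right (x : ℂ) : B x 0 = 0 := by unfold B; simp

theorem B_smul_left (c : ℝ) (u x : ℂ) : B ((c : ℂ) * u) x = c * B u x := by
  unfold B
  simp only [Complex.mul_re, Complex.mul_im, Complex.ofReal_re, Complex.ofReal_im]; ring

theorem B_smul_right (c : ℝ) (u x : ℂ) : B x ((c : ℂ) * u) = c * B x u := by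
  unfold B
  simp only [Complex.mul_re, Complex.mul_im, Complex.ofReal_re, Complex.ofReal_im]; ring

theorem B_mul_mul (w u v : ℂ) : B (w * u) (w * v) = Complex.normSq w * B u v := by
  unfold B
  simp only [Complex.mul_re, Complex.mul_im, Complex.normSq_apply]; ring

theorem B_mul_self (w u : ℂ) : B u (w * u) = Complex.normSq u * w.im := by
  unfold B
  simp only [Complex.mul_re, Complex.mul_im, Complex.normSq_apply]; ring

theorem B_sum_left {ι : Type*} (S : Finset ι) (f : ι → ℂ) (x : ℂ) :
    B (∑ k ∈ S, f k) x = ∑ k ∈ S, B (f k) x := by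
  classical
  induction S using Finset.induction_on with
  | empty => simp [B_zero_left]
  | insert k S hk ih => rw [Finset.sum_insert hk, Finset.sum_insert hk, B_add_left, ih]

theorem B_sum_right {ι : Type*} (S : Finset ι) (f : ι → ℂ) (x : ℂ) :
    B x (∑ k ∈ S, f k) = ∑ k ∈ S, B x (f k) := by
  classical
  induction S using Finset.induction_on with
  | empty => simp [B_zero_right]
  | insert k S hk ih => rw [Finset.sum_insert hk, Finset.sum_insert hk, B_add_right, ih]

/-- The invariant. -/
def Inv (w : ℂ) (N : ℕ) (s : ℕ → ℂ) : Prop :=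
  (∀ i j, i ≤ j → j < N → 0 ≤ B (s j) (s i)) ∧ (∀ i j, i ≤ j → j < N → 0 ≤ B (s i) (w * s j))

section ring

variable {R : Type*} [CommRing R]

/-- One step of the network with jumps of height at least one. -/
def stepA (a : ℕ → R) (w : R) (n N : ℕ) (s : ℕ → R) (i : ℕ) : R :=
  if i < n then w * s (N - 1) + ∑ k ∈ range (i + 1), a k * s k else s (i - 1)

/-- One step of the network with horizontal jumps. -/
def stepB (a : ℕ → R) (w : R) (n : ℕ) (s : ℕ → R) (i : ℕ) : R :=
  ∑ k ∈ range (i + 1), a k * s k + w * ∑ k ∈ Ico (i + 1) n, a k * s k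

def seqA (a : ℕ → R) (w : R) (n N : ℕ) : ℕ → ℕ → R
  | 0 => fun i => if i < n then 1 else 0
  | h + 1 => stepA a w n N (seqA a w n N h)

def seqB (a : ℕ → R) (w : R) (n : ℕ) : ℕ → ℕ → R
  | 0 => fun _ => 1
  | h + 1 => stepB a w n (seqB a w n h)

theorem map_seqA {S : Type*} [CommRing S] (φ : R →+* S) (a : ℕ → R) (w : R) (n N : ℕ) :
    ∀ h i, φ (seqA a w n N h i) = seqA (fun k => φ (a k)) (φ w) n N h i := by
  intro h
  induction h with
  | zero => intro i; simp only [seqA]; split_ifs <;> simp
  | succ h ih =>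
    intro i
    simp only [seqA, stepA]
    split_ifs
    · simp only [map_add, map_mul, map_sum, ih]
    · exact ih _

theorem map_seqB {S : Type*} [CommRing S] (φ : R →+* S) (a : ℕ → R) (w : R) (n : ℕ) :
    ∀ h i, φ (seqB a w n h i) = seqB (fun k => φ (a k)) (φ w) n h i := by
  intro h
  induction h with
  | zero => intro i; simp [seqB]
  | succ h ih =>
    intro i
    simp only [seqB, stepB, map_add, map_mul, map_sum, ih]

end ring

section step

variable {w : ℂ} {a : ℕ → ℝ} {n N : ℕ} {s : ℕ → ℂ}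

/-- The sum of the first terms. -/
theorem B_part_right {x : ℂ} {S : Finset ℕ} (ha : ∀ k, 0 < a k)
    (h : ∀ k ∈ S, 0 ≤ B x (s k)) : 0 ≤ B x (∑ k ∈ S, (a k : ℂ) * s k) := by
  rw [B_sum_right]
  exact Finset.sum_nonneg fun k hk => by
    rw [B_smul_right]; exact mul_nonneg (ha k).le (h k hk)

theorem B_part_left {x : ℂ} {S : Finset ℕ} (ha : ∀ k, 0 < a k)
    (h : ∀ k ∈ S, 0 ≤ B (s k) x) : 0 ≤ B (∑ k ∈ S, (a k : ℂ) * s k) x := by
  rw [B_sum_left]
  exact Finset.sum_nonneg fun k hk => by
    rw [B_smul_left]; exact mul_nonneg (ha k).le (h k hk)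

theorem B_part_right_w {x : ℂ} {S : Finset ℕ} (ha : ∀ k, 0 < a k)
    (h : ∀ k ∈ S, 0 ≤ B x (w * s k)) : 0 ≤ B x (w * ∑ k ∈ S, (a k : ℂ) * s k) := by
  rw [Finset.mul_sum, B_sum_right]
  exact Finset.sum_nonneg fun k hk => by
    rw [show w * ((a k : ℂ) * s k) = (a k : ℂ) * (w * s k) by ring, B_smul_right]
    exact mul_nonneg (ha k).le (h k hk)

/-- The new vector of a line is between. -/
theorem stepA_mid (ha : ∀ k, 0 < a k) (hs : Inv w N s) {i k : ℕ} (hi : i < n)
    (hik : i ≤ k) (hk : k < N) : 0 ≤ B (s k) (stepA (fun k => (a k : ℂ)) w n N s i) := by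
  unfold stepA
  rw [if_pos hi, B_add_right]
  refine add_nonneg (hs.2 k (N - 1) (by omega) (by omega)) (B_part_right ha fun l hl => ?_)
  rw [Finset.mem_range] at hl
  exact hs.1 l k (by omega) hk

theorem stepA_mid2 (ha : ∀ k, 0 < a k) (hs : Inv w N s) {i k : ℕ} (hi : i < n)
    (hik : i ≤ k) (hk : k < N) : 0 ≤ B (stepA (fun k => (a k : ℂ)) w n N s i) (w * s k) := by
  unfold stepA
  rw [if_pos hi, B_add_left]
  refine add_nonneg ?_ (B_part_left ha fun l hl => ?_)
  · rw [B_mul_mul]
    exact mul_nonneg (Complex.normSq_nonneg _) (hs.1 k (N - 1) (by omega) (by omega))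
  · rw [Finset.mem_range] at hl
    exact hs.2 l k (by omega) hk

theorem stepA_diff {i j : ℕ} (hij : i ≤ j) (hj : j < n) :
    stepA (fun k => (a k : ℂ)) w n N s j = stepA (fun k => (a k : ℂ)) w n N s i +
      ∑ k ∈ Ico (i + 1) (j + 1), (a k : ℂ) * s k := by
  unfold stepA
  rw [if_pos hj, if_pos (by omega), add_assoc, Finset.sum_range_add_sum_Ico _ (by omega)]

theorem stepA_inv (hw : 0 < w.im) (ha : ∀ k, 0 < a k) (hn1 : 1 ≤ n) (hn : n ≤ N) (hs : Inv w N s) :
    Inv w N (stepA (fun k => (a k : ℂ)) w n N s) := by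
  constructor
  · intro i j hij hj
    by_cases h1 : j < n
    · rw [stepA_diff hij h1, B_add_left, B_self, zero_add]
      refine B_part_left ha fun k hk => ?_
      rw [Finset.mem_Ico] at hk
      exact stepA_mid ha hs (by omega) (by omega) (by omega)
    · have e : stepA (fun k => (a k : ℂ)) w n N s j = s (j - 1) := by
        unfold stepA; rw [if_neg h1]
      rw [e]
      by_cases h2 : i < n
      · exact stepA_mid ha hs h2 (by omega) (by omega)
      · have e2 : stepA (fun k => (a k : ℂ)) w n N s i = s (i - 1) := by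
          unfold stepA; rw [if_neg h2]
        rw [e2]
        exact hs.1 _ _ (by omega) (by omega)
  · intro i j hij hj
    by_cases h1 : j < n
    · rw [stepA_diff hij h1, mul_add, B_add_right, B_mul_self]
      refine add_nonneg (mul_nonneg (Complex.normSq_nonneg _) hw.le) (B_part_right_w ha fun k hk => ?_)
      rw [Finset.mem_Ico] at hk
      exact stepA_mid2 ha hs (by omega) (by omega) (by omega)
    · have e : stepA (fun k => (a k : ℂ)) w n N s j = s (j - 1) := by
        unfold stepA; rw [if_neg h1]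
      rw [e]
      by_cases h2 : i < n
      · exact stepA_mid2 ha hs h2 (by omega) (by omega)
      · have e2 : stepA (fun k => (a k : ℂ)) w n N s i = s (i - 1) := by
          unfold stepA; rw [if_neg h2]
        rw [e2]
        exact hs.2 _ _ (by omega) (by omega)

/-- The functional used to see that a vector is not zero. -/
theorem ne_zero_of_pos {f v : ℂ} (h : 0 < B f v + B v (w * f)) : v ≠ 0 := by
  rintro rfl
  rw [B_zero_left, B_zero_right] at h
  simp at h

theorem stepA_ne (hw : 0 < w.im) (ha : ∀ k, 0 < a k) (hn : n ≤ N) (hs : Inv w N s)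
    {i : ℕ} (hi : i < n) (h0 : s i ≠ 0) : stepA (fun k => (a k : ℂ)) w n N s i ≠ 0 := by
  refine ne_zero_of_pos (w := w) (f := s i) ?_
  have h1 := stepA_mid ha hs hi le_rfl (by omega)
  have h2 : 0 < B (stepA (fun k => (a k : ℂ)) w n N s i) (w * s i) := by
    unfold stepA
    rw [if_pos hi, B_add_left]
    have h3 : 0 ≤ B (w * s (N - 1)) (w * s i) := by
      rw [B_mul_mul]
      exact mul_nonneg (Complex.normSq_nonneg _) (hs.1 i (N - 1) (by omega) (by omega))
    have h4 : 0 ≤ B (∑ k ∈ range i, (a k : ℂ) * s k) (w * s i) := by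
      refine B_part_left ha fun l hl => ?_
      rw [Finset.mem_range] at hl
      exact hs.2 l i (by omega) (by omega)
    rw [Finset.sum_range_succ, B_add_left, B_smul_left, B_mul_self]
    have h5 : 0 < a i * (Complex.normSq (s i) * w.im) :=
      mul_pos (ha i) (mul_pos (Complex.normSq_pos.2 h0) hw)
    linarith
  linarith

theorem stepB_split {i : ℕ} :
    stepB (fun k => (a k : ℂ)) w n s i =
      ∑ k ∈ range (i + 1), (a k : ℂ) * s k + w * ∑ k ∈ Ico (i + 1) n, (a k : ℂ) * s k := rfl

theorem stepB_inv (hw : 0 < w.im) (ha : ∀ k, 0 < a k) (hs : Inv w n s) :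
    Inv w n (stepB (fun k => (a k : ℂ)) w n s) := by
  have key : ∀ i j, i ≤ j → j < n → ∃ A F G : ℂ,
      stepB (fun k => (a k : ℂ)) w n s i = A + w * (F + G) ∧
      stepB (fun k => (a k : ℂ)) w n s j = A + F + w * G ∧
      0 ≤ B F A ∧ 0 ≤ B F (w * G) ∧ 0 ≤ B A (w * F) ∧ 0 ≤ B G F := by
    intro i j hij hj
    refine ⟨∑ k ∈ range (i + 1), (a k : ℂ) * s k, ∑ k ∈ Ico (i + 1) (j + 1), (a k : ℂ) * s k,
      ∑ k ∈ Ico (j + 1) n, (a k : ℂ) * s k, ?_, ?_, ?_, ?_, ?_, ?_⟩
    · rw [stepB_split, Finset.sum_Ico_consecutive _ (by omega) (by omega)]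
    · rw [stepB_split, Finset.sum_range_add_sum_Ico _ (by omega)]
    · refine B_part_left ha fun k hk => B_part_right ha fun l hl => ?_
      rw [Finset.mem_Ico] at hk
      rw [Finset.mem_range] at hl
      exact hs.1 _ _ (by omega) (by omega)
    · refine B_part_left ha fun k hk => B_part_right_w ha fun l hl => ?_
      rw [Finset.mem_Ico] at hk hl
      exact hs.2 _ _ (by omega) (by omega)
    · refine B_part_left ha fun k hk => B_part_right_w ha fun l hl => ?_
      rw [Finset.mem_range] at hk
      rw [Finset.mem_Ico] at hl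
      exact hs.2 _ _ (by omega) (by omega)
    · refine B_part_left ha fun k hk => B_part_right ha fun l hl => ?_
      rw [Finset.mem_Ico] at hk hl
      exact hs.1 _ _ (by omega) (by omega)
  constructor
  · intro i j hij hj
    obtain ⟨A, F, G, h1, h2, h3, h4, h5, h6⟩ := key i j hij hj
    rw [h1, h2]
    have e : B (A + F + w * G) (A + w * (F + G)) =
        B F A + B F (w * G) + B A (w * F) + Complex.normSq F * w.im + Complex.normSq w * B G F := by
      unfold B
      simp only [Complex.mul_re, Complex.mul_im, Complex.normSq_apply, Complex.add_re, Complex.add_im]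
      ring
    rw [e]
    have := mul_nonneg (Complex.normSq_nonneg F) hw.le
    have := mul_nonneg (Complex.normSq_nonneg w) h6
    linarith
  · intro i j hij hj
    obtain ⟨A, F, G, h1, h2, h3, h4, h5, h6⟩ := key i j hij hj
    rw [h1, h2]
    have e : B (A + w * (F + G)) (w * (A + F + w * G)) =
        Complex.normSq (A + w * G) * w.im + B A (w * F) + Complex.normSq w * B G F +
          Complex.normSq w * B F A + Complex.normSq w * B F (w * G) := by
      unfold B
      simp only [Complex.mul_re, Complex.mul_im, Complex.normSq_apply, Complex.add_re, Complex.add_im]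
      ring
    rw [e]
    have := mul_nonneg (Complex.normSq_nonneg (A + w * G)) hw.le
    have := mul_nonneg (Complex.normSq_nonneg w) h3
    have := mul_nonneg (Complex.normSq_nonneg w) h4
    have := mul_nonneg (Complex.normSq_nonneg w) h6
    linarith

theorem stepB_ne (hw : 0 < w.im) (ha : ∀ k, 0 < a k) (hs : Inv w n s)
    {i : ℕ} (hi : i < n) (h0 : s i ≠ 0) : stepB (fun k => (a k : ℂ)) w n s i ≠ 0 := by
  refine ne_zero_of_pos (w := w) (f := s i) ?_
  have h1 : 0 ≤ B (s i) (stepB (fun k => (a k : ℂ)) w n s i) := by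
    rw [stepB_split, B_add_right]
    refine add_nonneg (B_part_right ha fun l hl => ?_) (B_part_right_w ha fun l hl => ?_)
    · rw [Finset.mem_range] at hl
      exact hs.1 _ _ (by omega) (by omega)
    · rw [Finset.mem_Ico] at hl
      exact hs.2 _ _ (by omega) (by omega)
  have h2 : 0 < B (stepB (fun k => (a k : ℂ)) w n s i) (w * s i) := by
    rw [stepB_split, B_add_left, Finset.sum_range_succ, B_add_left, B_smul_left, B_mul_self, B_mul_mul]
    have h4 : 0 ≤ B (∑ k ∈ range i, (a k : ℂ) * s k) (w * s i) := by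
      refine B_part_left ha fun l hl => ?_
      rw [Finset.mem_range] at hl
      exact hs.2 l i (by omega) (by omega)
    have h6 : 0 ≤ B (∑ k ∈ Ico (i + 1) n, (a k : ℂ) * s k) (s i) := by
      refine B_part_left ha fun l hl => ?_
      rw [Finset.mem_Ico] at hl
      exact hs.1 _ _ (by omega) (by omega)
    have h5 : 0 < a i * (Complex.normSq (s i) * w.im) :=
      mul_pos (ha i) (mul_pos (Complex.normSq_pos.2 h0) hw)
    have h7 := mul_nonneg (Complex.normSq_nonneg w) h6
    linarith
  linarith

end step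

theorem seqA_ne {w : ℂ} (hw : 0 < w.im) {a : ℕ → ℝ} (ha : ∀ k, 0 < a k) {n N : ℕ} (hn1 : 1 ≤ n)
    (hn : n ≤ N) : ∀ h, Inv w N (seqA (fun k => (a k : ℂ)) w n N h) ∧
      ∀ i < n, seqA (fun k => (a k : ℂ)) w n N h i ≠ 0 := by
  intro h
  induction h with
  | zero =>
    refine ⟨⟨fun i j _ _ => ?_, fun i j _ _ => ?_⟩, fun i hi => ?_⟩
    · simp only [seqA]
      split_ifs <;> simp [B]
    · simp only [seqA]
      split_ifs <;> simp [B, hw.le]
    · simp only [seqA]
      rw [if_pos hi]
      exact one_ne_zero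
  | succ h ih =>
    exact ⟨stepA_inv hw ha hn1 hn ih.1, fun i hi => stepA_ne hw ha hn ih.1 hi (ih.2 i hi)⟩

theorem seqB_ne {w : ℂ} (hw : 0 < w.im) {a : ℕ → ℝ} (ha : ∀ k, 0 < a k) {n : ℕ} :
    ∀ h, Inv w n (seqB (fun k => (a k : ℂ)) w n h) ∧
      ∀ i < n, seqB (fun k => (a k : ℂ)) w n h i ≠ 0 := by
  intro h
  induction h with
  | zero =>
    refine ⟨⟨fun i j _ _ => ?_, fun i j _ _ => ?_⟩, fun i hi => ?_⟩
    · simp [seqB, B]
    · simp [seqB, B, hw.le]
    · simp [seqB]
  | succ h ih =>
    exact ⟨stepB_inv hw ha ih.1, fun i hi => stepB_ne hw ha ih.1 hi (ih.2 i hi)⟩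

end Q195.RZ
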