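import Pool.Agent.Q195.RZ.Series

set_option autoImplicit false

/-!
# From the polynomial `Q` to the network
-/

open Finset Polynomial

namespace Q195.RZ

/-- Factorisation of `Q`. -/
theorem exists_factor : ∀ (d : ℕ) (Q : ℝ[X]), Q.natDegree = d →
    (∀ a : ℂ, aeval a Q = 0 → a.im = 0 ∧ 0 < a.re) → 0 < Q.eval 0 →
    ∃ a : ℕ → ℝ, (∀ k, 0 < a k) ∧ Q = C (Q.eval 0) * ∏ k ∈ range d, (1 - C (a k) * X) := by
  intro d
  induction d with
  | zero =>
    intro Q hd _ _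
    refine ⟨fun _ => 1, fun _ => one_pos, ?_⟩
    have h1 := Polynomial.eq_C_of_natDegree_eq_zero hd
    rw [Finset.range_zero, Finset.prod_empty, mul_one]
    conv_lhs => rw [h1]
    rw [h1]
    simp
  | succ d ih =>
    intro Q hd hS h0
    obtain ⟨b, hb⟩ := Complex.exists_root (f := Q.map (algebraMap ℝ ℂ)) (by
      rw [Polynomial.degree_map, Polynomial.degree_eq_natDegree (by rintro rfl; simp at hd), hd]
      exact_mod_cast Nat.succ_pos d)
    have hbQ : aeval b Q = 0 := by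
      rw [Polynomial.IsRoot, Polynomial.eval_map_algebraMap] at hb
      exact hb
    have hQ0 : Q ≠ 0 := by rintro rfl; simp at hd
    obtain ⟨him, hre⟩ := hS b hbQ
    have hbre : b = ((b.re : ℝ) : ℂ) := by
      apply Complex.ext <;> simp [him]
    have hroot : Q.IsRoot b.re := by
      rw [hbre] at hbQ
      have h1 : aeval ((b.re : ℝ) : ℂ) Q = ((Q.eval b.re : ℝ) : ℂ) := by
        have := Polynomial.aeval_algebraMap_apply ℂ b.re Q
        simpa using this
      rw [h1] at hbQ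
      exact_mod_cast hbQ
    obtain ⟨P, hP⟩ := Polynomial.dvd_iff_isRoot.2 hroot
    have hP0 : P ≠ 0 := by rintro rfl; rw [mul_zero] at hP; exact hQ0 hP
    have hX : (X - C b.re : ℝ[X]) ≠ 0 := Polynomial.X_sub_C_ne_zero _
    have hdP : P.natDegree = d := by
      have := hd
      rw [hP, Polynomial.natDegree_mul hX hP0, Polynomial.natDegree_X_sub_C] at this
      omega
    have he : Q.eval 0 = -b.re * P.eval 0 := by
      rw [hP]; simp
    have hPe : (C (-b.re) * P).natDegree = d := by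
      rw [Polynomial.natDegree_C_mul (by linarith), hdP]
    have e0 : (C (-b.re) * P).eval 0 = Q.eval 0 := by
      rw [he]; simp
    obtain ⟨a, ha, hfac⟩ := ih (C (-b.re) * P) hPe (fun c hc => hS c (by
      rw [map_mul, Polynomial.aeval_C] at hc
      have h3 : (algebraMap ℝ ℂ) (-b.re) ≠ 0 := by
        intro h4
        have h5 := (algebraMap ℝ ℂ).injective (h4.trans (map_zero _).symm)
        linarith
      rw [hP, map_mul, (mul_eq_zero.1 hc).resolve_left h3, mul_zero])) (by rw [e0]; exact h0)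
    refine ⟨fun k => if k = d then (b.re)⁻¹ else a k, fun k => ?_, ?_⟩
    · show 0 < if k = d then (b.re)⁻¹ else a k
      split_ifs
      · exact inv_pos.2 hre
      · exact ha k
    · rw [Finset.prod_range_succ]
      have e1 : ∏ k ∈ range d, (1 - C (if k = d then (b.re)⁻¹ else a k) * X : ℝ[X]) =
          ∏ k ∈ range d, (1 - C (a k) * X) := by
        refine Finset.prod_congr rfl fun k hk => ?_
        rw [Finset.mem_range] at hk
        rw [if_neg (by omega)]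
      show Q = C (eval 0 Q) * ((∏ k ∈ range d, (1 - C (if k = d then (b.re)⁻¹ else a k) * X)) *
        (1 - C (if d = d then (b.re)⁻¹ else a d) * X))
      rw [e1, if_pos rfl, ← mul_assoc, ← e0, ← hfac, hP]
      have e2 : (C b.re : ℝ[X]) * C (b.re)⁻¹ = 1 := by
        rw [← C_mul, mul_inv_cancel₀ hre.ne', C_1]
      rw [C_neg]
      linear_combination (-P * X) * e2

/-- The coefficient of `t ^ m` in `1 / (Q(t) + z t ^ r)`. -/
noncomputable def P (Q : ℝ[X]) (r m : ℕ) : RatFunc ℝ :=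
  PowerSeries.coeff m (((Q.map (algebraMap ℝ (RatFunc ℝ)) : (RatFunc ℝ)[X]) :
    PowerSeries (RatFunc ℝ)) + PowerSeries.C RatFunc.X * PowerSeries.X ^ r)⁻¹

theorem mapQ {Q : ℝ[X]} {d : ℕ} {a : ℕ → ℝ}
    (h : Q = C (Q.eval 0) * ∏ k ∈ range d, (1 - C (a k) * X)) :
    ((Q.map (algebraMap ℝ (RatFunc ℝ)) : (RatFunc ℝ)[X]) : PowerSeries (RatFunc ℝ)) =
      PowerSeries.C (algebraMap ℝ (RatFunc ℝ) (Q.eval 0)) *
        ∏ k ∈ range d, (1 - PowerSeries.C (algebraMap ℝ (RatFunc ℝ) (a k)) * PowerSeries.X) := by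
  conv_lhs => rw [h]
  rw [Polynomial.map_mul, Polynomial.map_C, Polynomial.coe_mul, Polynomial.coe_C,
    Polynomial.map_prod]
  congr 1
  have h2 : ∀ f : ℕ → (RatFunc ℝ)[X], ((∏ k ∈ range d, f k : (RatFunc ℝ)[X]) : PowerSeries (RatFunc ℝ)) =
      ∏ k ∈ range d, ((f k : (RatFunc ℝ)[X]) : PowerSeries (RatFunc ℝ)) := by
    intro f
    exact map_prod (Polynomial.coeToPowerSeries.ringHom (R := RatFunc ℝ)) f (range d)
  rw [h2]
  refine Finset.prod_congr rfl fun k _ => ?_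
  simp

/-- The number `w` as a polynomial. -/
noncomputable def ww (q : ℝ) : ℝ[X] := C (-q⁻¹) * X

theorem aeval_ww (q : ℝ) (z : ℂ) : aeval z (ww q) = -z / (q : ℂ) := by
  unfold ww
  rw [map_mul, Polynomial.aeval_C, Polynomial.aeval_X]
  simp
  ring

theorem algebraMap_ww (q : ℝ) : algebraMap ℝ[X] (RatFunc ℝ) (ww q) =
    -(RatFunc.X) / algebraMap ℝ (RatFunc ℝ) q := by
  unfold ww
  rw [map_mul, RatFunc.algebraMap_X, RatFunc.algebraMap_C, ← RatFunc.algebraMap_eq_C, map_neg, map_inv₀]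
  ring

/-- The linear relation for `U = q0 * (Q + z t ^ r)⁻¹`. -/
theorem rel {Q : ℝ[X]} {d : ℕ} {a : ℕ → ℝ} (hq : 0 < Q.eval 0)
    (h : Q = C (Q.eval 0) * ∏ k ∈ range d, (1 - C (a k) * X)) (r : ℕ) :
    (∏ k ∈ range d, (1 - PowerSeries.C (algebraMap ℝ (RatFunc ℝ) (a k)) * PowerSeries.X) -
      PowerSeries.C (algebraMap ℝ[X] (RatFunc ℝ) (ww (Q.eval 0))) * PowerSeries.X ^ r) *
      (PowerSeries.C (algebraMap ℝ (RatFunc ℝ) (Q.eval 0)) *
        (((Q.map (algebraMap ℝ (RatFunc ℝ)) : (RatFunc ℝ)[X]) : PowerSeries (RatFunc ℝ)) +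
          PowerSeries.C RatFunc.X * PowerSeries.X ^ r)⁻¹) = 1 := by
  have hq' : algebraMap ℝ (RatFunc ℝ) (Q.eval 0) ≠ 0 := by
    intro h1
    have := (algebraMap ℝ (RatFunc ℝ)).injective (h1.trans (map_zero _).symm)
    linarith
  set F := ((Q.map (algebraMap ℝ (RatFunc ℝ)) : (RatFunc ℝ)[X]) : PowerSeries (RatFunc ℝ)) +
          PowerSeries.C RatFunc.X * PowerSeries.X ^ r with hF
  have e1 : (∏ k ∈ range d, (1 - PowerSeries.C (algebraMap ℝ (RatFunc ℝ) (a k)) * PowerSeries.X) -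
      PowerSeries.C (algebraMap ℝ[X] (RatFunc ℝ) (ww (Q.eval 0))) * PowerSeries.X ^ r) *
      PowerSeries.C (algebraMap ℝ (RatFunc ℝ) (Q.eval 0)) = F := by
    rw [hF, mapQ h, algebraMap_ww (Q.eval 0)]
    have e2 : PowerSeries.C (-(RatFunc.X : RatFunc ℝ) / algebraMap ℝ (RatFunc ℝ) (Q.eval 0)) *
        PowerSeries.C (algebraMap ℝ (RatFunc ℝ) (Q.eval 0)) = - PowerSeries.C RatFunc.X := by
      rw [← map_mul, div_mul_cancel₀ _ hq', map_neg]
    linear_combination (-(PowerSeries.X ^ r)) * e2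
  rw [← mul_assoc, e1]
  apply PowerSeries.mul_inv_cancel
  rw [hF, map_add, mapQ h, map_mul, map_prod, Finset.prod_eq_one (fun k _ => by simp), mul_one,
    PowerSeries.constantCoeff_C, map_mul, map_pow, PowerSeries.constantCoeff_C,
    PowerSeries.constantCoeff_X]
  rcases Nat.eq_zero_or_pos r with h1 | h1
  · subst h1
    rw [pow_zero, mul_one]
    intro h2
    have h3 : (RatFunc.X : RatFunc ℝ) = algebraMap ℝ[X] (RatFunc ℝ) (C (-(Q.eval 0))) := by
      rw [RatFunc.algebraMap_C, ← RatFunc.algebraMap_eq_C, map_neg]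
      linear_combination h2
    rw [← RatFunc.algebraMap_X] at h3
    have h4 := RatFunc.algebraMap_injective ℝ h3
    have h5 := congrArg Polynomial.natDegree h4
    rw [Polynomial.natDegree_X, Polynomial.natDegree_C] at h5
    omega
  · rw [zero_pow (by omega), mul_zero, add_zero]
    exact hq'

theorem w_cond {q : ℝ} (hq : 0 < q) {z : ℂ} (hz : ¬ (z.im = 0 ∧ 0 < z.re)) :
    ¬ ((-z / (q : ℂ)).im = 0 ∧ (-z / (q : ℂ)).re < 0) := by
  intro h
  apply hz
  have h1 : (-z / (q : ℂ)) = ((q⁻¹ : ℝ) : ℂ) * (-z) := by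
    rw [Complex.ofReal_inv]; ring
  rw [h1, Complex.im_ofReal_mul, Complex.re_ofReal_mul, Complex.neg_im, Complex.neg_re] at h
  have h2 : 0 < q⁻¹ := inv_pos.2 hq
  constructor
  · have := (mul_eq_zero.1 h.1).resolve_left h2.ne'
    linarith
  · by_contra h3
    have := mul_nonneg h2.le (show 0 ≤ -z.re by linarith)
    linarith [h.2]

theorem GG_last {R : Type*} [CommRing R] (a : ℕ → R) {n : ℕ} (hn : 1 ≤ n) (U : PowerSeries R) :
    GG a n U (n - 1) = U := by
  unfold GG tl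
  rw [if_pos (by omega), Finset.Ico_eq_empty (by omega), Finset.prod_empty, one_mul]

/-- The case of a positive exponent. -/
theorem mainA {Q : ℝ[X]} (hd : 1 ≤ Q.natDegree) (hS : ∀ a : ℂ, aeval a Q = 0 → a.im = 0 ∧ 0 < a.re)
    (hq : 0 < Q.eval 0) {r : ℕ} (hr : 1 ≤ r) (m : ℕ) :
    ∃ p : ℝ[X], P Q r m = algebraMap ℝ[X] (RatFunc ℝ) p ∧
      ∀ z : ℂ, aeval z p = 0 → z.im = 0 ∧ 0 < z.re := by
  obtain ⟨a, ha, hfac⟩ := exists_factor _ Q rfl hS hq
  have h1 := coeffA hd hr (rel hq hfac r) m (Q.natDegree - 1) (by omega)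
  rw [GG_last _ hd, PowerSeries.coeff_C_mul] at h1
  refine ⟨C (Q.eval 0)⁻¹ * seqA (fun k => C (a k)) (ww (Q.eval 0)) Q.natDegree
    (Q.natDegree + r - 1) m (Q.natDegree - 1), ?_, ?_⟩
  · have h2 := map_seqA (algebraMap ℝ[X] (RatFunc ℝ)) (fun k => C (a k)) (ww (Q.eval 0)) Q.natDegree
      (Q.natDegree + r - 1) m (Q.natDegree - 1)
    have h3 : (fun k => algebraMap ℝ[X] (RatFunc ℝ) (C (a k))) =
        fun k => algebraMap ℝ (RatFunc ℝ) (a k) := by
      funext k
      rw [RatFunc.algebraMap_C, ← RatFunc.algebraMap_eq_C]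
    rw [h3, h1] at h2
    have hq' : algebraMap ℝ (RatFunc ℝ) (Q.eval 0) ≠ 0 := by
      intro h1
      have := (algebraMap ℝ (RatFunc ℝ)).injective (h1.trans (map_zero _).symm)
      linarith
    rw [map_mul, h2, RatFunc.algebraMap_C, ← RatFunc.algebraMap_eq_C, map_inv₀, ← mul_assoc,
      inv_mul_cancel₀ hq', one_mul]
    rfl
  · intro z hz
    by_contra hcon
    rw [map_mul, Polynomial.aeval_C] at hz
    have h4 : (algebraMap ℝ ℂ) (Q.eval 0)⁻¹ ≠ 0 := by
      intro h5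
      exact (inv_pos.2 hq).ne' ((algebraMap ℝ ℂ).injective (h5.trans (map_zero _).symm))
    have h5 := (mul_eq_zero.1 hz).resolve_left h4
    have h6 := map_seqA (aeval z : ℝ[X] →ₐ[ℝ] ℂ).toRingHom (fun k => C (a k)) (ww (Q.eval 0))
      Q.natDegree (Q.natDegree + r - 1) m (Q.natDegree - 1)
    have h7 : (fun k => (aeval z : ℝ[X] →ₐ[ℝ] ℂ).toRingHom (C (a k))) = fun k => ((a k : ℝ) : ℂ) := by
      funext k
      exact Polynomial.aeval_C z (a k)
    rw [h7] at h6
    have h8 : (aeval z : ℝ[X] →ₐ[ℝ] ℂ).toRingHom (ww (Q.eval 0)) = -z / ((Q.eval 0 : ℝ) : ℂ) :=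
      aeval_ww _ _
    rw [h8] at h6
    exact seqA_ne_all ha hd (by omega) (w_cond hq hcon) m (i := Q.natDegree - 1) (by omega)
      (h6.symm.trans h5)

/-- The case of the exponent zero. -/
theorem mainB {Q : ℝ[X]} (hd : 1 ≤ Q.natDegree) (hS : ∀ a : ℂ, aeval a Q = 0 → a.im = 0 ∧ 0 < a.re)
    (hq : 0 < Q.eval 0) (m : ℕ) :
    ∃ p D : ℝ[X], D ≠ 0 ∧
      P Q 0 m = algebraMap ℝ[X] (RatFunc ℝ) p / algebraMap ℝ[X] (RatFunc ℝ) D ∧
      ∀ z : ℂ, aeval z p = 0 → z.im = 0 ∧ 0 < z.re := by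
  obtain ⟨a, ha, hfac⟩ := exists_factor _ Q rfl hS hq
  have h0 := rel hq hfac 0
  rw [pow_zero, mul_one] at h0
  have h1 := coeffB hd h0 m (Q.natDegree - 1) (by omega)
  rw [GG_last _ hd, PowerSeries.coeff_C_mul] at h1
  have hD : (1 - ww (Q.eval 0) : ℝ[X]) ≠ 0 := by
    intro h2
    have h3 := congrArg (Polynomial.eval 0) h2
    unfold ww at h3
    simp at h3
  refine ⟨C (Q.eval 0)⁻¹ * seqB (fun k => C (a k)) (ww (Q.eval 0)) Q.natDegree m (Q.natDegree - 1),
    (1 - ww (Q.eval 0)) ^ (m + 1), pow_ne_zero _ hD, ?_, ?_⟩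
  · have h2 := map_seqB (algebraMap ℝ[X] (RatFunc ℝ)) (fun k => C (a k)) (ww (Q.eval 0)) Q.natDegree
      m (Q.natDegree - 1)
    have h3 : (fun k => algebraMap ℝ[X] (RatFunc ℝ) (C (a k))) =
        fun k => algebraMap ℝ (RatFunc ℝ) (a k) := by
      funext k
      rw [RatFunc.algebraMap_C, ← RatFunc.algebraMap_eq_C]
    rw [h3, h1] at h2
    have hq' : algebraMap ℝ (RatFunc ℝ) (Q.eval 0) ≠ 0 := by
      intro h1
      have := (algebraMap ℝ (RatFunc ℝ)).injective (h1.trans (map_zero _).symm)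
      linarith
    have hD' : algebraMap ℝ[X] (RatFunc ℝ) ((1 - ww (Q.eval 0)) ^ (m + 1)) ≠ 0 := by
      intro h4
      exact pow_ne_zero (m + 1) hD (RatFunc.algebraMap_injective ℝ (h4.trans (map_zero _).symm))
    rw [eq_div_iff hD', map_mul, h2, RatFunc.algebraMap_C, ← RatFunc.algebraMap_eq_C, map_inv₀, map_pow,
      map_sub, map_one]
    unfold P
    rw [pow_zero, mul_one]
    field_simp
  · intro z hz
    by_contra hcon
    rw [map_mul, Polynomial.aeval_C] at hz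
    have h4 : (algebraMap ℝ ℂ) (Q.eval 0)⁻¹ ≠ 0 := by
      intro h5
      exact (inv_pos.2 hq).ne' ((algebraMap ℝ ℂ).injective (h5.trans (map_zero _).symm))
    have h5 := (mul_eq_zero.1 hz).resolve_left h4
    have h6 := map_seqB (aeval z : ℝ[X] →ₐ[ℝ] ℂ).toRingHom (fun k => C (a k)) (ww (Q.eval 0))
      Q.natDegree m (Q.natDegree - 1)
    have h7 : (fun k => (aeval z : ℝ[X] →ₐ[ℝ] ℂ).toRingHom (C (a k))) = fun k => ((a k : ℝ) : ℂ) := by
      funext k
      exact Polynomial.aeval_C z (a k)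
    rw [h7] at h6
    have h8 : (aeval z : ℝ[X] →ₐ[ℝ] ℂ).toRingHom (ww (Q.eval 0)) = -z / ((Q.eval 0 : ℝ) : ℂ) :=
      aeval_ww _ _
    rw [h8] at h6
    exact seqB_ne_all ha (w_cond hq hcon) m (i := Q.natDegree - 1) (by omega)
      (h6.symm.trans h5)

end Q195.RZ
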