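import Pool.Agent.Q195.RZ.Core

set_option autoImplicit false

/-!
# The network and the power series `1 / (∏ (1 - a_k t) - w t^r)`
-/

open Finset

namespace Q195.RZ

section ring

variable {R : Type*} [CommRing R]

/-- The product over the lines after `i`. -/
noncomputable def tl (a : ℕ → R) (n i : ℕ) : PowerSeries R :=
  ∏ k ∈ Ico (i + 1) n, (1 - PowerSeries.C (a k) * PowerSeries.X)

theorem constCoeff_tl (a : ℕ → R) (n i : ℕ) : PowerSeries.constantCoeff (tl a n i) = 1 := by
  unfold tl
  rw [map_prod]
  exact Finset.prod_eq_one fun k _ => by simp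

/-- Lines and phases. -/
noncomputable def GG (a : ℕ → R) (n : ℕ) (U : PowerSeries R) (i : ℕ) : PowerSeries R :=
  if i < n then tl a n i * U else PowerSeries.X ^ (i - (n - 1)) * U

theorem tl_succ (a : ℕ → R) {n i : ℕ} (hi : i + 1 < n) :
    tl a n i = (1 - PowerSeries.C (a (i + 1)) * PowerSeries.X) * tl a n (i + 1) := by
  unfold tl
  rw [Finset.prod_eq_prod_Ico_succ_bot (by omega)]

theorem tl_zero (a : ℕ → R) {n : ℕ} (hn : 1 ≤ n) :
    ∏ k ∈ range n, (1 - PowerSeries.C (a k) * PowerSeries.X) =
      (1 - PowerSeries.C (a 0) * PowerSeries.X) * tl a n 0 := by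
  unfold tl
  rw [Finset.range_eq_Ico, Finset.prod_eq_prod_Ico_succ_bot (by omega)]

theorem coeff_line (a : ℕ → R) {n i : ℕ} (hi : i + 1 < n) (U : PowerSeries R) (h : ℕ) :
    PowerSeries.coeff (h + 1) (GG a n U (i + 1)) = PowerSeries.coeff (h + 1) (GG a n U i) +
      a (i + 1) * PowerSeries.coeff h (GG a n U (i + 1)) := by
  unfold GG
  rw [if_pos hi, if_pos (by omega), tl_succ a hi]
  have e : (1 - PowerSeries.C (a (i + 1)) * PowerSeries.X) * tl a n (i + 1) * U =
      tl a n (i + 1) * U - PowerSeries.C (a (i + 1)) * (PowerSeries.X * (tl a n (i + 1) * U)) := by ring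
  rw [e, map_sub, PowerSeries.coeff_C_mul, PowerSeries.coeff_succ_X_mul]
  ring

theorem coeffA {a : ℕ → R} {w : R} {n r : ℕ} (hn : 1 ≤ n) (hr : 1 ≤ r) {U : PowerSeries R}
    (hU : (∏ k ∈ range n, (1 - PowerSeries.C (a k) * PowerSeries.X) -
      PowerSeries.C w * PowerSeries.X ^ r) * U = 1) :
    ∀ h, ∀ i < n + r - 1, seqA a w n (n + r - 1) h i = PowerSeries.coeff h (GG a n U i) := by
  have hc : PowerSeries.constantCoeff U = 1 := by
    have := congrArg PowerSeries.constantCoeff hU
    rw [map_mul, map_sub, map_prod, map_one] at this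
    rw [Finset.prod_eq_one (fun k _ => by simp)] at this
    rw [map_mul, map_pow, PowerSeries.constantCoeff_X, zero_pow (by omega), mul_zero, sub_zero,
      one_mul] at this
    exact this
  have hG0 : ∀ h, PowerSeries.coeff (h + 1) (GG a n U 0) =
      a 0 * PowerSeries.coeff h (GG a n U 0) + w * PowerSeries.coeff h (GG a n U (n + r - 1 - 1)) := by
    intro h
    have e1 : GG a n U 0 = 1 + PowerSeries.C (a 0) * (PowerSeries.X * GG a n U 0) +
        PowerSeries.C w * (PowerSeries.X * (PowerSeries.X ^ (r - 1) * U)) := by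
      have e2 : PowerSeries.X * (PowerSeries.X ^ (r - 1) * U) = PowerSeries.X ^ r * U := by
        rw [← mul_assoc, ← pow_succ', Nat.sub_add_cancel hr]
      rw [e2]
      unfold GG
      rw [if_pos (by omega)]
      rw [tl_zero a hn] at hU
      linear_combination hU
    have e3 : GG a n U (n + r - 1 - 1) = PowerSeries.X ^ (r - 1) * U := by
      unfold GG
      split_ifs with h1
      · have h2 : r = 1 := by omega
        subst h2
        unfold tl
        rw [Finset.Ico_eq_empty (by omega), Finset.prod_empty]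
        simp
      · congr 2
        omega
    conv_lhs => rw [e1]
    rw [e3, map_add, map_add, PowerSeries.coeff_C_mul, PowerSeries.coeff_C_mul,
      PowerSeries.coeff_succ_X_mul, PowerSeries.coeff_succ_X_mul, PowerSeries.coeff_one,
      if_neg (by omega), zero_add]
  intro h
  induction h with
  | zero =>
    intro i hi
    rw [PowerSeries.coeff_zero_eq_constantCoeff_apply]
    simp only [seqA, GG]
    split_ifs with h1
    · rw [map_mul, constCoeff_tl, hc, one_mul]
    · rw [map_mul, map_pow, PowerSeries.constantCoeff_X, zero_pow (by omega), zero_mul]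
  | succ h ih =>
    intro i hi
    by_cases h1 : i < n
    · have key : ∀ i, i < n → PowerSeries.coeff (h + 1) (GG a n U i) =
          w * PowerSeries.coeff h (GG a n U (n + r - 1 - 1)) +
            ∑ k ∈ range (i + 1), a k * PowerSeries.coeff h (GG a n U k) := by
        intro i
        induction i with
        | zero => intro _; rw [hG0]; simp; ring
        | succ i ih2 =>
          intro h2
          rw [coeff_line a h2, ih2 (by omega), Finset.sum_range_succ _ (i + 1)]
          ring
      rw [key i h1]
      simp only [seqA, stepA]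
      rw [if_pos h1, ih _ (by omega)]
      congr 1
      refine Finset.sum_congr rfl fun k hk => ?_
      rw [Finset.mem_range] at hk
      rw [ih k (by omega)]
    · simp only [seqA, stepA]
      rw [if_neg h1, ih _ (by omega)]
      unfold GG
      rw [if_neg h1]
      split_ifs with h2
      · have h3 : i = n := by omega
        subst h3
        have h4 : i - (i - 1) = 1 := by omega
        rw [h4, pow_one, PowerSeries.coeff_succ_X_mul]
        have h5 : tl a i (i - 1) = 1 := by
          unfold tl
          rw [Finset.Ico_eq_empty (by omega), Finset.prod_empty]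
        rw [h5, one_mul]
      · have h4 : i - (n - 1) = (i - 1 - (n - 1)) + 1 := by omega
        rw [h4, pow_succ', mul_assoc, PowerSeries.coeff_succ_X_mul]

theorem coeffB {a : ℕ → R} {w : R} {n : ℕ} (hn : 1 ≤ n) {U : PowerSeries R}
    (hU : (∏ k ∈ range n, (1 - PowerSeries.C (a k) * PowerSeries.X) - PowerSeries.C w) * U = 1) :
    ∀ h, ∀ i < n, seqB a w n h i = (1 - w) ^ (h + 1) * PowerSeries.coeff h (GG a n U i) := by
  have hc : (1 - w) * PowerSeries.constantCoeff U = 1 := by
    have := congrArg PowerSeries.constantCoeff hU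
    rw [map_mul, map_sub, map_prod, map_one] at this
    rw [Finset.prod_eq_one (fun k _ => by simp)] at this
    rw [PowerSeries.constantCoeff_C] at this
    exact this
  have hG0 : ∀ h, PowerSeries.coeff (h + 1) (GG a n U 0) =
      a 0 * PowerSeries.coeff h (GG a n U 0) + w * PowerSeries.coeff (h + 1) (GG a n U (n - 1)) := by
    intro h
    have e3 : GG a n U (n - 1) = U := by
      unfold GG tl
      rw [if_pos (by omega), Finset.Ico_eq_empty (by omega), Finset.prod_empty, one_mul]
    have e1 : GG a n U 0 = 1 + PowerSeries.C (a 0) * (PowerSeries.X * GG a n U 0) +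
        PowerSeries.C w * U := by
      unfold GG
      rw [if_pos (by omega)]
      rw [tl_zero a hn] at hU
      linear_combination hU
    conv_lhs => rw [e1]
    rw [e3, map_add, map_add, PowerSeries.coeff_C_mul, PowerSeries.coeff_C_mul,
      PowerSeries.coeff_succ_X_mul, PowerSeries.coeff_one, if_neg (by omega), zero_add]
  intro h
  induction h with
  | zero =>
    intro i hi
    rw [PowerSeries.coeff_zero_eq_constantCoeff_apply]
    simp only [seqB, GG]
    rw [if_pos hi, map_mul, constCoeff_tl, one_mul, zero_add, pow_one, hc]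
  | succ h ih =>
    intro i hi
    have key : ∀ i, i < n → PowerSeries.coeff (h + 1) (GG a n U i) =
        PowerSeries.coeff (h + 1) (GG a n U 0) +
          ∑ k ∈ Ico 1 (i + 1), a k * PowerSeries.coeff h (GG a n U k) := by
      intro i
      induction i with
      | zero => intro _; simp
      | succ i ih2 =>
        intro h2
        rw [coeff_line a h2, ih2 (by omega), Finset.sum_Ico_succ_top (show 1 ≤ i + 1 by omega)]
        ring
    have h0 : (1 - w) * PowerSeries.coeff (h + 1) (GG a n U 0) =
        a 0 * PowerSeries.coeff h (GG a n U 0) +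
          w * ∑ k ∈ Ico 1 n, a k * PowerSeries.coeff h (GG a n U k) := by
      have h1 := key (n - 1) (by omega)
      rw [Nat.sub_add_cancel hn] at h1
      have h2 := hG0 h
      rw [h1] at h2
      linear_combination h2
    have h3 : (1 - w) * PowerSeries.coeff (h + 1) (GG a n U i) =
        ∑ k ∈ range (i + 1), a k * PowerSeries.coeff h (GG a n U k) +
          w * ∑ k ∈ Ico (i + 1) n, a k * PowerSeries.coeff h (GG a n U k) := by
      rw [key i hi, mul_add, h0, ← Finset.sum_Ico_consecutive _ (show 1 ≤ i + 1 by omega)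
        (show i + 1 ≤ n by omega), Finset.range_eq_Ico,
        Finset.sum_eq_sum_Ico_succ_bot (show 0 < i + 1 by omega)]
      ring
    have h5 : ∀ S : Finset ℕ, (∀ k ∈ S, k < n) → ∑ k ∈ S, a k * seqB a w n h k =
        (1 - w) ^ (h + 1) * ∑ k ∈ S, a k * PowerSeries.coeff h (GG a n U k) := by
      intro S hS
      rw [Finset.mul_sum]
      refine Finset.sum_congr rfl fun k hk => ?_
      rw [ih k (hS k hk)]
      ring
    rw [pow_succ, mul_assoc, h3]
    show ∑ k ∈ range (i + 1), a k * seqB a w n h k + w * ∑ k ∈ Ico (i + 1) n, a k * seqB a w n h k = _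
    rw [h5 _ (fun k hk => by rw [Finset.mem_range] at hk; omega),
      h5 _ (fun k hk => by rw [Finset.mem_Ico] at hk; omega)]
    ring

end ring

theorem seqA_pos {a : ℕ → ℝ} (ha : ∀ k, 0 < a k) {w : ℝ} (hw : 0 ≤ w) (n N : ℕ) :
    ∀ h, (∀ i, 0 ≤ seqA a w n N h i) ∧ ∀ i < n, 0 < seqA a w n N h i := by
  intro h
  induction h with
  | zero =>
    refine ⟨fun i => ?_, fun i hi => ?_⟩
    · simp only [seqA]; split_ifs <;> norm_num
    · simp only [seqA]; rw [if_pos hi]; norm_num
  | succ h ih =>
    have h1 : ∀ i < n, 0 < seqA a w n N (h + 1) i := by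
      intro i hi
      simp only [seqA, stepA]
      rw [if_pos hi, Finset.sum_range_succ]
      have := mul_nonneg hw (ih.1 (N - 1))
      have h2 : 0 ≤ ∑ k ∈ range i, a k * seqA a w n N h k :=
        Finset.sum_nonneg fun k _ => mul_nonneg (ha k).le (ih.1 k)
      have h3 := mul_pos (ha i) (ih.2 i hi)
      linarith
    refine ⟨fun i => ?_, h1⟩
    by_cases hi : i < n
    · exact (h1 i hi).le
    · simp only [seqA, stepA]
      rw [if_neg hi]
      exact ih.1 _

theorem seqB_pos {a : ℕ → ℝ} (ha : ∀ k, 0 < a k) {w : ℝ} (hw : 0 ≤ w) (n : ℕ) :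
    ∀ h i, 0 < seqB a w n h i := by
  intro h
  induction h with
  | zero => intro i; simp [seqB]
  | succ h ih =>
    intro i
    simp only [seqB, stepB]
    rw [Finset.sum_range_succ]
    have h2 : 0 ≤ ∑ k ∈ range i, a k * seqB a w n h k :=
      Finset.sum_nonneg fun k _ => mul_nonneg (ha k).le (ih k).le
    have h4 : 0 ≤ ∑ k ∈ Ico (i + 1) n, a k * seqB a w n h k :=
      Finset.sum_nonneg fun k _ => mul_nonneg (ha k).le (ih k).le
    have h3 := mul_pos (ha i) (ih i)
    have := mul_nonneg hw h4
    linarith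

theorem seqA_ne_all {a : ℕ → ℝ} (ha : ∀ k, 0 < a k) {w : ℂ} {n N : ℕ} (hn1 : 1 ≤ n) (hn : n ≤ N)
    (hw : ¬ (w.im = 0 ∧ w.re < 0)) (h : ℕ) {i : ℕ} (hi : i < n) :
    seqA (fun k => (a k : ℂ)) w n N h i ≠ 0 := by
  rcases lt_trichotomy w.im 0 with h1 | h1 | h1
  · have h2 := (seqA_ne (w := (starRingEnd ℂ) w) (by rw [Complex.conj_im]; linarith) ha hn1 hn h).2 i hi
    intro h3
    apply h2
    have h4 := map_seqA (starRingEnd ℂ) (fun k => (a k : ℂ)) w n N h i
    rw [h3, map_zero] at h4
    simp only [Complex.conj_ofReal] at h4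
    exact h4.symm
  · have h5 : 0 ≤ w.re := by
      by_contra h6
      exact hw ⟨h1, not_le.1 h6⟩
    have h2 := (seqA_pos ha h5 n N h).2 i hi
    have h4 := map_seqA Complex.ofRealHom a w.re n N h i
    have h6 : Complex.ofRealHom w.re = w := by
      apply Complex.ext <;> simp [h1]
    rw [h6] at h4
    simp only [Complex.ofRealHom_eq_coe] at h4
    rw [← h4]
    exact_mod_cast h2.ne'
  · exact (seqA_ne h1 ha hn1 hn h).2 i hi

theorem seqB_ne_all {a : ℕ → ℝ} (ha : ∀ k, 0 < a k) {w : ℂ} {n : ℕ}
    (hw : ¬ (w.im = 0 ∧ w.re < 0)) (h : ℕ) {i : ℕ} (hi : i < n) :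
    seqB (fun k => (a k : ℂ)) w n h i ≠ 0 := by
  rcases lt_trichotomy w.im 0 with h1 | h1 | h1
  · have h2 := (seqB_ne (w := (starRingEnd ℂ) w) (by rw [Complex.conj_im]; linarith) ha h).2 i hi
    intro h3
    apply h2
    have h4 := map_seqB (starRingEnd ℂ) (fun k => (a k : ℂ)) w n h i
    rw [h3, map_zero] at h4
    simp only [Complex.conj_ofReal] at h4
    exact h4.symm
  · have h5 : 0 ≤ w.re := by
      by_contra h6
      exact hw ⟨h1, not_le.1 h6⟩
    have h2 := seqB_pos ha h5 n h i
    have h4 := map_seqB Complex.ofRealHom a w.re n h i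
    have h6 : Complex.ofRealHom w.re = w := by
      apply Complex.ext <;> simp [h1]
    rw [h6] at h4
    simp only [Complex.ofRealHom_eq_coe] at h4
    rw [← h4]
    exact_mod_cast h2.ne'
  · exact (seqB_ne h1 ha h).2 i hi

end Q195.RZ
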